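import Pool.Agent.H379R3.CDQ.Stmts

/-! # TaskTr (helper192) -/

set_option autoImplicit false

namespace Pool.Agent.H379R3.CDQ

namespace TrTask

theorem out_mul {k : Type} [Field k] (U : Subgroup (GG k)) (c : SeparableClosure k)
    (hc : ∀ u ∈ U, u c = c) (g g' : GG k) (h : (QuotientGroup.mk g : GG k ⧸ U) = QuotientGroup.mk g') :
    g c = g' c := by
  rw [QuotientGroup.eq] at h
  have h1 := hc _ h
  have h2 : g ((g⁻¹ * g') c) = g c := by rw [h1]
  rw [← h2]
  simp [AlgEquiv.mul_apply]

theorem main : TaskTr := by
  intro k _ U hU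
  have hfin : Finite (GG k ⧸ U) := Subgroup.quotient_finite_of_isOpen U hU
  have : Fintype (GG k ⧸ U) := Fintype.ofFinite _
  -- the fixed field
  let HU : ClosedSubgroup (GG k) := ⟨U, U.isClosed_of_isOpen hU⟩
  have hfix : (IntermediateField.fixedField U).fixingSubgroup = U :=
    InfiniteGalois.fixingSubgroup_fixedField HU
  set E := IntermediateField.fixedField U with hE
  have hEmem : ∀ c : SeparableClosure k, c ∈ E ↔ ∀ u ∈ U, u c = c := by
    intro c
    rw [hE, IntermediateField.mem_fixedField_iff]
  -- the characters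
  let φ : (GG k ⧸ U) → (E →* SeparableClosure k) := fun s =>
    ((s.out : SeparableClosure k ≃ₐ[k] SeparableClosure k).toRingEquiv.toMonoidHom).comp
      (E.val : E →+* SeparableClosure k).toMonoidHom
  have hφ : ∀ s (x : E), φ s x = s.out (x : SeparableClosure k) := fun s x => rfl
  have hinj : Function.Injective φ := by
    intro s s' h
    have h1 : (s.out : GG k)⁻¹ * s'.out ∈ E.fixingSubgroup := by
      rw [IntermediateField.mem_fixingSubgroup_iff]
      intro x hx
      have h2 := congrArg (fun f : E →* SeparableClosure k => f ⟨x, hx⟩) h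
      simp only [hφ] at h2
      rw [AlgEquiv.mul_apply, ← h2, ← AlgEquiv.mul_apply]
      simp
    rw [hfix] at h1
    have h3 : (QuotientGroup.mk s.out : GG k ⧸ U) = QuotientGroup.mk s'.out :=
      QuotientGroup.eq.mpr h1
    simpa using h3
  have hli : LinearIndependent (SeparableClosure k)
      (fun s : GG k ⧸ U => (φ s : E → SeparableClosure k)) :=
    (linearIndependent_monoidHom E (SeparableClosure k)).comp φ hinj
  have hne : ∃ x : E, ∑ s : GG k ⧸ U, s.out (x : SeparableClosure k) ≠ 0 := by
    by_contra hcon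
    push Not at hcon
    have h1 : ∑ s : GG k ⧸ U, (1 : SeparableClosure k) • (φ s : E → SeparableClosure k) = 0 := by
      funext x
      rw [Finset.sum_apply]
      simp only [Pi.smul_apply, one_smul, Pi.zero_apply]
      exact hcon x
    have h2 := Fintype.linearIndependent_iff.mp hli (fun _ => 1) h1
      (QuotientGroup.mk (1 : GG k))
    exact one_ne_zero h2
  obtain ⟨x, hx⟩ := hne
  set t : SeparableClosure k := ∑ s : GG k ⧸ U, s.out (x : SeparableClosure k) with ht
  have hxU : ∀ u ∈ U, u (x : SeparableClosure k) = x := (hEmem _).mp x.2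
  have htinv : ∀ g : GG k, g t = t := by
    intro g
    rw [ht, map_sum]
    have h1 : ∀ s : GG k ⧸ U, g (s.out (x : SeparableClosure k))
        = (g • s).out (x : SeparableClosure k) := by
      intro s
      rw [← AlgEquiv.mul_apply]
      refine out_mul U _ hxU _ _ ?_
      rw [QuotientGroup.out_eq']
      conv_rhs => rw [← QuotientGroup.out_eq' s]
      rfl
    rw [Finset.sum_congr rfl (fun s _ => h1 s)]
    exact Equiv.sum_comp (MulAction.toPerm g) (fun s : GG k ⧸ U => s.out (x : SeparableClosure k))
  refine ⟨(x : SeparableClosure k) * t⁻¹, ?_, ?_⟩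
  · intro u hu
    rw [map_mul, map_inv₀, htinv u, hxU u hu]
  · rw [finsum_eq_sum_of_fintype]
    have h1 : ∀ s : GG k ⧸ U, s.out ((x : SeparableClosure k) * t⁻¹)
        = s.out (x : SeparableClosure k) * t⁻¹ := by
      intro s
      rw [map_mul, map_inv₀, htinv]
    rw [Finset.sum_congr rfl (fun s _ => h1 s), ← Finset.sum_mul, ← ht]
    exact mul_inv_cancel₀ hx

end TrTask

theorem taskTr : TaskTr := TrTask.main

end Pool.Agent.H379R3.CDQ
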